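import Mathlib

set_option autoImplicit false

namespace Pool.Agent.Results.MP_165839_co.EtaNonneg

universe u

/-- The unit sphere `S(x)`: the subgraph induced by the neighbours of `x`. -/
abbrev unitSphere {V : Type u} (G : SimpleGraph V) (x : V) : SimpleGraph (G.neighborSet x) :=
  G.induce (G.neighborSet x)

/-- The graph `G - x`: the subgraph induced by all vertices other than `x`. -/
abbrev deleteVertex {V : Type u} (G : SimpleGraph V) (x : V) : SimpleGraph ({x}ᶜ : Set V) :=
  G.induce ({x}ᶜ : Set V)

/-- Collapsible graphs: `K_1` is collapsible, and `G` is collapsible if some vertex `x` has both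
`G - x` and `S(x)` collapsible. -/
inductive Collapsible : {V : Type u} → SimpleGraph V → Prop
  | single {V : Type u} (G : SimpleGraph V) (h : Nat.card V = 1) : Collapsible G
  | step {V : Type u} (G : SimpleGraph V) (x : V) (h1 : Collapsible (deleteVertex G x))
      (h2 : Collapsible (unitSphere G x)) : Collapsible G

/-- `IsSphere n G` says that `G` is an `(n-1)`-sphere. -/
def IsSphere : ℕ → {V : Type u} → SimpleGraph V → Prop
  | 0, V, _ => IsEmpty V
  | n + 1, _, G => (∀ x, IsSphere n (unitSphere G x)) ∧ ∃ x, Collapsible (deleteVertex G x)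

/-- `IsManifoldGraph n G` says that `G` is an `(n-1)`-graph: the `(-1)`-graph is the empty graph, and
for `d ≥ 0` all unit spheres of a `d`-graph are `(d-1)`-spheres. -/
def IsManifoldGraph : ℕ → {V : Type u} → SimpleGraph V → Prop
  | 0, V, _ => IsEmpty V
  | n + 1, _, G => ∀ x, IsSphere n (unitSphere G x)

/-- `IsVariety n G` says that `G` is an `(n-1)`-variety: the `(-1)`-variety is the empty graph, and
`G` is a `d`-variety (`d ≥ 0`) if for some set `S` of pairwise non-adjacent vertices, `S(x)` is a
`(d-1)`-graph for `x` not in `S` and a `(d-1)`-variety for `x` in `S`. -/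
def IsVariety : ℕ → {V : Type u} → SimpleGraph V → Prop
  | 0, V, _ => IsEmpty V
  | n + 1, V, G => ∃ S : Set V, (∀ x ∈ S, ∀ y ∈ S, ¬ G.Adj x y) ∧
      (∀ x ∉ S, IsManifoldGraph n (unitSphere G x)) ∧ (∀ x ∈ S, IsVariety n (unitSphere G x))

/-- The simplices of the Whitney complex of `G`: the vertex sets of the complete subgraphs. -/
abbrev Simplex {V : Type u} (G : SimpleGraph V) : Type u :=
  {s : Finset V // s.Nonempty ∧ G.IsClique (s : Set V)}

/-- The Barycentric refinement: simplices, two of them adjacent when one strictly contains the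
other. -/
def barycentric {V : Type u} (G : SimpleGraph V) : SimpleGraph (Simplex G) where
  Adj s t := s.1 ⊂ t.1 ∨ t.1 ⊂ s.1
  symm := ⟨fun _ _ h => h.symm⟩
  loopless := ⟨fun _ h => h.elim (fun h => (ssubset_irrefl _ h)) (fun h => (ssubset_irrefl _ h))⟩

/-- `numComplete H k` is `v_k(H)`, the number of complete subgraphs with `k + 1` vertices. -/
noncomputable def numComplete {V : Type u} (H : SimpleGraph V) (k : ℕ) : ℕ :=
  Nat.card {s : Finset V // H.IsNClique (k + 1) s}

/-- The functional `η(G) = ∑_{k ≥ 1} (-1)^{k+1} (k+1) v_k(G_1)`. (All `v_k(G_1)` with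
`k` at least the number of vertices of `G_1` vanish.) -/
noncomputable def eta {V : Type u} (G : SimpleGraph V) : ℤ :=
  ∑ k ∈ Finset.Icc 1 (Nat.card (Simplex G)),
    (-1 : ℤ) ^ (k + 1) * ((k : ℤ) + 1) * (numComplete (barycentric G) k : ℤ)

/-! ### Alternating sums over cliques -/

open Classical in
/-- All cliques (including the empty one) of a finite graph. -/
noncomputable def cl {V : Type u} [Fintype V] (G : SimpleGraph V) : Finset (Finset V) :=
  Finset.univ.filter (fun s => G.IsClique (s : Set V))

open Classical in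
lemma mem_cl {V : Type u} [Fintype V] (G : SimpleGraph V) (s : Finset V) :
    s ∈ cl G ↔ G.IsClique (s : Set V) := by
  simp [cl]

open Classical in
/-- All cliques containing `s`. -/
noncomputable def clc {V : Type u} [Fintype V] (G : SimpleGraph V) (s : Finset V) :
    Finset (Finset V) :=
  Finset.univ.filter (fun t => G.IsClique (t : Set V) ∧ s ⊆ t)

open Classical in
lemma mem_clc {V : Type u} [Fintype V] (G : SimpleGraph V) (s t : Finset V) :
    t ∈ clc G s ↔ G.IsClique (t : Set V) ∧ s ⊆ t := by
  simp [clc]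

lemma clc_empty {V : Type u} [Fintype V] (G : SimpleGraph V) : clc G ∅ = cl G := by
  ext t
  rw [mem_clc, mem_cl]
  simp

/-- The alternating sum over the cliques containing `s`. -/
noncomputable def R {V : Type u} [Fintype V] (G : SimpleGraph V) (s : Finset V) : ℤ :=
  ∑ t ∈ clc G s, (-1 : ℤ) ^ t.card

open Classical in
lemma R_unitSphere {V : Type u} [Fintype V] (G : SimpleGraph V) (x : V)
    [Fintype (G.neighborSet x)] (s' : Finset (G.neighborSet x)) :
    R (unitSphere G x) s' = - R G (insert x (s'.map (Function.Embedding.subtype _))) := by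
  unfold R
  rw [← Finset.sum_neg_distrib]
  refine Finset.sum_bij' (fun t' _ => insert x (t'.map (Function.Embedding.subtype _)))
    (fun t _ => (t.erase x).subtype (fun v => v ∈ G.neighborSet x)) ?_ ?_ ?_ ?_ ?_
  · intro t' ht'
    rw [mem_clc] at ht' ⊢
    refine ⟨?_, ?_⟩
    · intro a ha b hb hab
      simp only [Finset.coe_insert, Finset.coe_map, Set.mem_insert_iff, Set.mem_image,
        Finset.mem_coe, Function.Embedding.subtype_apply] at ha hb
      rcases ha with rfl | ⟨a', ha', rfl⟩
      · rcases hb with rfl | ⟨b', hb', rfl⟩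
        · exact absurd rfl hab
        · exact b'.2
      · rcases hb with rfl | ⟨b', hb', rfl⟩
        · exact a'.2.symm
        · exact ht'.1 ha' hb' (fun h => hab (by rw [h]))
    · apply Finset.insert_subset_insert
      exact Finset.map_subset_map.mpr ht'.2
  · intro t ht
    rw [mem_clc] at ht ⊢
    refine ⟨?_, ?_⟩
    · intro a ha b hb hab
      simp only [Finset.mem_coe, Finset.mem_subtype, Finset.mem_erase] at ha hb
      exact ht.1 ha.2 hb.2 (fun h => hab (Subtype.ext h))
    · intro a ha
      simp only [Finset.mem_subtype, Finset.mem_erase]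
      refine ⟨fun h => ?_, ht.2 ?_⟩
      · have := a.2
        rw [h] at this
        exact G.loopless.irrefl x this
      · apply Finset.mem_insert_of_mem
        exact Finset.mem_map.mpr ⟨a, ha, rfl⟩
  · intro t' ht'
    ext a
    simp only [Finset.mem_subtype, Finset.mem_erase, Finset.mem_insert, Finset.mem_map,
      Function.Embedding.subtype_apply]
    constructor
    · rintro ⟨h1, h2 | ⟨b, hb, hb2⟩⟩
      · exact absurd h2 h1
      · rwa [← Subtype.ext hb2]
    · intro h
      refine ⟨fun h2 => ?_, Or.inr ⟨a, h, rfl⟩⟩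
      have := a.2
      rw [h2] at this
      exact G.loopless.irrefl x this
  · intro t ht
    rw [mem_clc] at ht
    have hxt : x ∈ t := ht.2 (Finset.mem_insert_self _ _)
    ext a
    simp only [Finset.mem_insert, Finset.mem_map, Finset.mem_subtype, Finset.mem_erase,
      Function.Embedding.subtype_apply]
    constructor
    · rintro (rfl | ⟨b, hb, rfl⟩)
      · exact hxt
      · exact hb.2
    · intro ha
      by_cases hax : a = x
      · exact Or.inl hax
      · exact Or.inr ⟨⟨a, ht.1 hxt ha (Ne.symm hax)⟩, ⟨hax, ha⟩, rfl⟩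
  · intro t' ht'
    rw [Finset.card_insert_of_notMem, Finset.card_map, pow_succ]
    · ring
    · intro h
      obtain ⟨b, _, hb⟩ := Finset.mem_map.mp h
      have := b.2
      rw [Function.Embedding.subtype_apply] at hb
      rw [hb] at this
      exact G.loopless.irrefl x this

open Classical in
lemma R_delete {V : Type u} [Fintype V] (G : SimpleGraph V) (x : V)
    [Fintype ({x}ᶜ : Set V)] [Fintype (G.neighborSet x)] :
    R G ∅ = R (deleteVertex G x) ∅ - R (unitSphere G x) ∅ := by
  have h1 : R (unitSphere G x) ∅ = - R G {x} := by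
    rw [R_unitSphere]; simp
  have h2 : R (deleteVertex G x) ∅ = ∑ t ∈ (cl G).filter (fun t => x ∉ t), (-1 : ℤ) ^ t.card := by
    unfold R
    refine Finset.sum_bij' (fun t' _ => t'.map (Function.Embedding.subtype _))
      (fun t _ => t.subtype (fun v => v ∈ ({x}ᶜ : Set V))) ?_ ?_ ?_ ?_ ?_
    · intro t' ht'
      rw [mem_clc] at ht'
      rw [Finset.mem_filter, mem_cl]
      refine ⟨?_, ?_⟩
      · intro a ha b hb hab
        simp only [Finset.coe_map, Set.mem_image,
          Finset.mem_coe, Function.Embedding.subtype_apply] at ha hb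
        obtain ⟨a', ha', rfl⟩ := ha
        obtain ⟨b', hb', rfl⟩ := hb
        exact ht'.1 ha' hb' (fun h => hab (by rw [h]))
      · intro h
        obtain ⟨b, _, hb⟩ := Finset.mem_map.mp h
        exact b.2 hb
    · intro t ht
      rw [Finset.mem_filter, mem_cl] at ht
      rw [mem_clc]
      refine ⟨?_, Finset.empty_subset _⟩
      intro a ha b hb hab
      simp only [Finset.mem_coe, Finset.mem_subtype] at ha hb
      exact ht.1 ha hb (fun h => hab (Subtype.ext h))
    · intro t' ht'
      ext a
      simp only [Finset.mem_subtype, Finset.mem_map,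
        Function.Embedding.subtype_apply]
      constructor
      · rintro ⟨b, hb, hb2⟩
        rwa [← Subtype.ext hb2]
      · intro h
        exact ⟨a, h, rfl⟩
    · intro t ht
      rw [Finset.mem_filter, mem_cl] at ht
      ext a
      simp only [Finset.mem_map, Finset.mem_subtype, Function.Embedding.subtype_apply]
      constructor
      · rintro ⟨b, hb, rfl⟩
        exact hb
      · intro ha
        refine ⟨⟨a, ?_⟩, ha, rfl⟩
        intro h
        rw [Set.mem_singleton_iff] at h
        rw [h] at ha
        exact ht.2 ha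
    · intro t' _
      rw [Finset.card_map]
  rw [h1, h2]
  unfold R
  rw [clc_empty, ← Finset.sum_filter_add_sum_filter_not (cl G) (fun t => x ∈ t)]
  have h4 : clc G ({x} : Finset V) = (cl G).filter (fun t => x ∈ t) := by
    ext t
    rw [mem_clc, Finset.mem_filter, mem_cl, Finset.singleton_subset_iff]
  rw [h4]
  ring

lemma R_fintype_irrel {V : Type u} (i1 i2 : Fintype V) (G : SimpleGraph V) (s : Finset V) :
    @R V i1 G s = @R V i2 G s := by
  have : i1 = i2 := Subsingleton.elim _ _
  rw [this]

lemma R_collapsible {V : Type u} {G : SimpleGraph V} (h : Collapsible G) :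
    ∀ [Fintype V], R G ∅ = 0 := by
  classical
  induction h with
  | single G h =>
    rename_i V
    intro _
    rw [Nat.card_eq_fintype_card] at h
    obtain ⟨x, hx⟩ := Fintype.card_eq_one_iff.mp h
    have hcl : cl G = {∅, {x}} := by
      ext s
      rw [mem_cl]
      constructor
      · intro _
        by_cases hs : s = ∅
        · simp [hs]
        · obtain ⟨y, hy⟩ := Finset.nonempty_iff_ne_empty.mpr hs
          have : s = {x} := by
            ext z
            rw [hx z, Finset.mem_singleton]
            rw [hx y] at hy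
            simp [hy]
          simp [this]
      · intro hs
        rw [Finset.mem_insert, Finset.mem_singleton] at hs
        rcases hs with rfl | rfl
        · simp
        · simp
    unfold R
    rw [clc_empty, hcl, Finset.sum_pair]
    · simp
    · exact (Finset.singleton_ne_empty x).symm
  | step G x h1 h2 ih1 ih2 =>
    intro _
    rw [R_delete G x, ih1, ih2, sub_zero]

lemma R_sphere (n : ℕ) : ∀ {V : Type u} [Fintype V] {G : SimpleGraph V}, IsSphere n G →
    R G ∅ = (-1) ^ n := by
  classical
  induction n with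
  | zero =>
    intro V _ G h
    have hV : IsEmpty V := h
    have hcl : cl G = {∅} := by
      ext s
      rw [mem_cl, Finset.mem_singleton]
      constructor
      · intro _
        exact Finset.eq_empty_of_isEmpty s
      · rintro rfl
        simp
    unfold R
    rw [clc_empty, hcl]
    simp
  | succ n ih =>
    intro V _ G h
    obtain ⟨h1, x, hx⟩ := h
    rw [R_delete G x, R_collapsible hx, ih (h1 x), pow_succ]
    ring

lemma IsSphere.isManifoldGraph {n : ℕ} {V : Type u} {G : SimpleGraph V} (h : IsSphere n G) :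
    IsManifoldGraph n G := by
  cases n with
  | zero => exact h
  | succ n => exact h.1

open Classical in
lemma exists_lift {V : Type u} (G : SimpleGraph V) (x : V) {s : Finset V}
    (hs : G.IsClique (s : Set V)) (hx : x ∈ s) :
    ∃ s' : Finset (G.neighborSet x), s = insert x (s'.map (Function.Embedding.subtype _)) ∧
      (unitSphere G x).IsClique (s' : Set (G.neighborSet x)) ∧ s'.card + 1 = s.card := by
  refine ⟨(s.erase x).subtype (fun v => v ∈ G.neighborSet x), ?_, ?_, ?_⟩
  · ext a
    simp only [Finset.mem_insert, Finset.mem_map, Finset.mem_subtype, Finset.mem_erase,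
      Function.Embedding.subtype_apply]
    constructor
    · intro ha
      by_cases hax : a = x
      · exact Or.inl hax
      · exact Or.inr ⟨⟨a, hs hx ha (Ne.symm hax)⟩, ⟨hax, ha⟩, rfl⟩
    · rintro (rfl | ⟨b, hb, rfl⟩)
      · exact hx
      · exact hb.2
  · intro a ha b hb hab
    simp only [Finset.mem_coe, Finset.mem_subtype, Finset.mem_erase] at ha hb
    exact hs ha.2 hb.2 (fun h => hab (Subtype.ext h))
  · rw [Finset.card_subtype]
    have : (s.erase x).filter (fun v => v ∈ G.neighborSet x) = s.erase x := by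
      apply Finset.filter_true_of_mem
      intro a ha
      rw [Finset.mem_erase] at ha
      exact hs hx ha.2 (Ne.symm ha.1)
    rw [this, Finset.card_erase_of_mem hx]
    have := Finset.card_pos.mpr ⟨x, hx⟩
    omega

/-- The Euler relation in a manifold graph. -/
lemma R_manifold (n : ℕ) : ∀ {V : Type u} [Fintype V] {G : SimpleGraph V}, IsManifoldGraph n G →
    ∀ s : Finset V, s.Nonempty → G.IsClique (s : Set V) → R G s = (-1) ^ n := by
  classical
  induction n with
  | zero =>
    intro V _ G h s hs _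
    have hV : IsEmpty V := h
    obtain ⟨x, _⟩ := hs
    exact hV.elim x
  | succ n ih =>
    intro V _ G h s hs hcl
    obtain ⟨x, hx⟩ := hs
    obtain ⟨s', hs', hcl', _⟩ := exists_lift G x hcl hx
    have h1 := R_unitSphere G x s'
    rw [← hs'] at h1
    have h2 : R G s = - R (unitSphere G x) s' := by rw [h1, neg_neg]
    have hsph : IsSphere n (unitSphere G x) := h x
    have h3 : R (unitSphere G x) s' = (-1) ^ n := by
      by_cases he : s' = ∅
      · rw [he]
        exact R_sphere n hsph
      · exact ih hsph.isManifoldGraph s' (Finset.nonempty_iff_ne_empty.mpr he) hcl'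
    rw [h2, h3, pow_succ]
    ring

/-- The Euler relation in a variety, for simplices of positive dimension. -/
lemma R_variety (n : ℕ) {V : Type u} [Fintype V] {G : SimpleGraph V} (h : IsVariety (n + 1) G)
    (s : Finset V) (hs : 2 ≤ s.card) (hcl : G.IsClique (s : Set V)) : R G s = (-1) ^ (n + 1) := by
  classical
  obtain ⟨S, hS1, hS2, _⟩ := h
  obtain ⟨a, ha, b, hb, hab⟩ := Finset.one_lt_card.mp (show 1 < s.card by omega)
  have hx : ∃ x ∈ s, x ∉ S := by
    by_cases haS : a ∈ S
    · refine ⟨b, hb, fun hbS => ?_⟩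
      exact hS1 a haS b hbS (hcl ha hb hab)
    · exact ⟨a, ha, haS⟩
  obtain ⟨x, hx, hxS⟩ := hx
  obtain ⟨s', hs', hcl', hcard⟩ := exists_lift G x hcl hx
  have h1 := R_unitSphere G x s'
  rw [← hs'] at h1
  have h2 : R G s = - R (unitSphere G x) s' := by rw [h1, neg_neg]
  have hne : s'.Nonempty := by
    rw [← Finset.card_pos]; omega
  rw [h2, R_manifold n (hS2 x hxS) s' hne hcl', pow_succ]
  ring

/-! ### Chains of simplices -/

section Chains

variable {V : Type u} [Fintype V] (G : SimpleGraph V)

noncomputable instance : Fintype (Simplex G) := by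
  classical
  unfold Simplex
  infer_instance

open Classical in
/-- Chains of simplices lying strictly below `x`. -/
noncomputable def lo (x : Simplex G) : Finset (Finset (Simplex G)) :=
  (cl (barycentric G)).filter (fun C => ∀ c ∈ C, c.1 ⊂ x.1)

open Classical in
/-- Chains of simplices with largest element `x`. -/
noncomputable def mx (x : Simplex G) : Finset (Finset (Simplex G)) :=
  (cl (barycentric G)).filter (fun C => x ∈ C ∧ ∀ c ∈ C, c.1 ⊆ x.1)

open Classical in
lemma mem_lo (x : Simplex G) (C : Finset (Simplex G)) :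
    C ∈ lo G x ↔ (barycentric G).IsClique (C : Set (Simplex G)) ∧ ∀ c ∈ C, c.1 ⊂ x.1 := by
  rw [lo, Finset.mem_filter, mem_cl]

open Classical in
lemma mem_mx (x : Simplex G) (C : Finset (Simplex G)) :
    C ∈ mx G x ↔ (barycentric G).IsClique (C : Set (Simplex G)) ∧ x ∈ C ∧ ∀ c ∈ C, c.1 ⊆ x.1 := by
  rw [mx, Finset.mem_filter, mem_cl]

open Classical in
lemma sum_mx (f : Finset (Simplex G) → ℤ) (x : Simplex G) :
    ∑ C ∈ mx G x, f C = ∑ C ∈ lo G x, f (insert x C) := by
  symm
  refine Finset.sum_bij' (fun C _ => insert x C) (fun C _ => C.erase x) ?_ ?_ ?_ ?_ ?_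
  · intro C hC
    rw [mem_lo] at hC
    rw [mem_mx]
    refine ⟨?_, Finset.mem_insert_self _ _, ?_⟩
    · intro a ha b hb hab
      simp only [Finset.coe_insert, Set.mem_insert_iff, Finset.mem_coe] at ha hb
      rcases ha with rfl | ha
      · rcases hb with rfl | hb
        · exact absurd rfl hab
        · exact Or.inr (hC.2 b hb)
      · rcases hb with rfl | hb
        · exact Or.inl (hC.2 a ha)
        · exact hC.1 ha hb hab
    · intro c hc
      rw [Finset.mem_insert] at hc
      rcases hc with rfl | hc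
      · exact Finset.Subset.refl _
      · exact (hC.2 c hc).1
  · intro C hC
    rw [mem_mx] at hC
    rw [mem_lo]
    refine ⟨?_, ?_⟩
    · intro a ha b hb hab
      simp only [Finset.mem_coe, Finset.mem_erase] at ha hb
      exact hC.1 ha.2 hb.2 hab
    · intro c hc
      rw [Finset.mem_erase] at hc
      refine lt_of_le_of_ne (hC.2.2 c hc.2) ?_
      intro h
      exact hc.1 (Subtype.ext h)
  · intro C hC
    rw [mem_lo] at hC
    apply Finset.erase_insert
    intro h
    exact ssubset_irrefl _ (hC.2 x h)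
  · intro C hC
    rw [mem_mx] at hC
    exact Finset.insert_erase hC.2.1
  · intro C _
    rfl

open Classical in
lemma exists_top {C : Finset (Simplex G)} (hC : (barycentric G).IsClique (C : Set (Simplex G)))
    (hne : C.Nonempty) : ∃ x ∈ C, ∀ c ∈ C, c.1 ⊆ x.1 := by
  obtain ⟨x, hx, hmax⟩ := Finset.exists_max_image C (fun c => c.1.card) hne
  refine ⟨x, hx, fun c hc => ?_⟩
  by_cases hcx : c = x
  · rw [hcx]
  · rcases hC hc hx hcx with h | h
    · exact h.1
    · exact absurd (Finset.card_lt_card h) (not_lt.mpr (hmax c hc))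

open Classical in
lemma mx_disjoint (x y : Simplex G) (hxy : x ≠ y) : Disjoint (mx G x) (mx G y) := by
  rw [Finset.disjoint_left]
  intro C hx hy
  rw [mem_mx] at hx hy
  exact hxy (Subtype.ext (Finset.Subset.antisymm (hy.2.2 x hx.2.1) (hx.2.2 y hy.2.1)))

open Classical in
lemma sum_lo (f : Finset (Simplex G) → ℤ) (x : Simplex G) :
    ∑ C ∈ lo G x, f C
      = f ∅ + ∑ y ∈ Finset.univ.filter (fun y : Simplex G => y.1 ⊂ x.1), ∑ C ∈ mx G y, f C := by
  rw [← Finset.sum_biUnion (fun a _ b _ hab => mx_disjoint G a b hab)]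
  have h : lo G x = insert ∅
      ((Finset.univ.filter (fun y : Simplex G => y.1 ⊂ x.1)).biUnion (mx G)) := by
    ext C
    rw [Finset.mem_insert, Finset.mem_biUnion, mem_lo]
    constructor
    · rintro ⟨h1, h2⟩
      by_cases hC : C = ∅
      · exact Or.inl hC
      · right
        obtain ⟨y, hy, hy2⟩ := exists_top G h1 (Finset.nonempty_iff_ne_empty.mpr hC)
        refine ⟨y, ?_, ?_⟩
        · rw [Finset.mem_filter]
          exact ⟨Finset.mem_univ _, h2 y hy⟩
        · rw [mem_mx]
          exact ⟨h1, hy, hy2⟩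
    · rintro (rfl | ⟨y, hy, hC⟩)
      · simp
      · rw [Finset.mem_filter] at hy
        rw [mem_mx] at hC
        exact ⟨hC.1, fun c hc => lt_of_le_of_lt (hC.2.2 c hc) hy.2⟩
  rw [h, Finset.sum_insert]
  intro h0
  rw [Finset.mem_biUnion] at h0
  obtain ⟨y, _, hC⟩ := h0
  rw [mem_mx] at hC
  exact absurd hC.2.1 (Finset.notMem_empty _)

open Classical in
lemma sum_all (f : Finset (Simplex G) → ℤ) :
    ∑ C ∈ cl (barycentric G), f C = f ∅ + ∑ y : Simplex G, ∑ C ∈ mx G y, f C := by
  rw [← Finset.sum_biUnion (fun a _ b _ hab => mx_disjoint G a b hab)]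
  have h : cl (barycentric G) = insert ∅ ((Finset.univ : Finset (Simplex G)).biUnion (mx G)) := by
    ext C
    rw [Finset.mem_insert, Finset.mem_biUnion, mem_cl]
    constructor
    · intro h1
      by_cases hC : C = ∅
      · exact Or.inl hC
      · right
        obtain ⟨y, hy, hy2⟩ := exists_top G h1 (Finset.nonempty_iff_ne_empty.mpr hC)
        refine ⟨y, Finset.mem_univ _, ?_⟩
        rw [mem_mx]
        exact ⟨h1, hy, hy2⟩
    · rintro (rfl | ⟨y, hy, hC⟩)
      · simp
      · rw [mem_mx] at hC
        exact hC.1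
  rw [h, Finset.sum_insert]
  intro h0
  rw [Finset.mem_biUnion] at h0
  obtain ⟨y, _, hC⟩ := h0
  rw [mem_mx] at hC
  exact absurd hC.2.1 (Finset.notMem_empty _)

open Classical in
/-- Sums over the proper nonempty faces of a simplex. -/
lemma sum_faces (g : ℕ → ℤ) (x : Simplex G) :
    ∑ y ∈ Finset.univ.filter (fun y : Simplex G => y.1 ⊂ x.1), g y.1.card
      = (∑ t ∈ x.1.powerset, g t.card) - g 0 - g x.1.card := by
  have h1 : ∑ y ∈ Finset.univ.filter (fun y : Simplex G => y.1 ⊂ x.1), g y.1.card
      = ∑ t ∈ (x.1.powerset.erase ∅).erase x.1, g t.card := by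
    refine Finset.sum_bij (fun y _ => y.1) ?_ ?_ ?_ ?_
    · intro y hy
      rw [Finset.mem_filter] at hy
      rw [Finset.mem_erase, Finset.mem_erase, Finset.mem_powerset]
      exact ⟨hy.2.ne, Finset.nonempty_iff_ne_empty.mp y.2.1, hy.2.1⟩
    · intro a _ b _ hab
      exact Subtype.ext hab
    · intro t ht
      rw [Finset.mem_erase, Finset.mem_erase, Finset.mem_powerset] at ht
      refine ⟨⟨t, Finset.nonempty_iff_ne_empty.mpr ht.2.1, ?_⟩, ?_, rfl⟩
      · exact x.2.2.subset (by exact_mod_cast ht.2.2)
      · rw [Finset.mem_filter]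
        exact ⟨Finset.mem_univ _, lt_of_le_of_ne ht.2.2 ht.1⟩
    · intro y _
      rfl
  rw [h1]
  have h2 : x.1 ∈ x.1.powerset.erase ∅ := by
    rw [Finset.mem_erase, Finset.mem_powerset]
    exact ⟨Finset.nonempty_iff_ne_empty.mp x.2.1, Finset.Subset.refl _⟩
  have h3 : (∅ : Finset V) ∈ x.1.powerset := Finset.empty_mem_powerset _
  have h4 := Finset.add_sum_erase _ (fun t : Finset V => g t.card) h2
  have h5 := Finset.add_sum_erase _ (fun t : Finset V => g t.card) h3
  simp only [Finset.card_empty] at h5
  linarith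

open Classical in
lemma sum_mx_sign (x : Simplex G) : ∑ C ∈ mx G x, (-1 : ℤ) ^ C.card = (-1) ^ x.1.card := by
  have main : ∀ n : ℕ, ∀ x : Simplex G, x.1.card = n →
      ∑ C ∈ mx G x, (-1 : ℤ) ^ C.card = (-1) ^ x.1.card := by
    intro n
    induction n using Nat.strong_induction_on with
    | _ n ih =>
      intro x hx
      rw [sum_mx]
      have h1 : ∀ C ∈ lo G x, (-1 : ℤ) ^ (insert x C).card = - (-1 : ℤ) ^ C.card := by
        intro C hC
        rw [mem_lo] at hC
        rw [Finset.card_insert_of_notMem (fun h => ssubset_irrefl _ (hC.2 x h)), pow_succ]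
        ring
      rw [Finset.sum_congr rfl h1, Finset.sum_neg_distrib, sum_lo]
      have h2 : ∑ y ∈ Finset.univ.filter (fun y : Simplex G => y.1 ⊂ x.1),
          ∑ C ∈ mx G y, (-1 : ℤ) ^ C.card
          = ∑ y ∈ Finset.univ.filter (fun y : Simplex G => y.1 ⊂ x.1), (-1 : ℤ) ^ y.1.card := by
        apply Finset.sum_congr rfl
        intro y hy
        rw [Finset.mem_filter] at hy
        exact ih y.1.card (by rw [← hx]; exact Finset.card_lt_card hy.2) y rfl
      rw [h2, sum_faces G (fun k => (-1 : ℤ) ^ k) x,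
        Finset.sum_powerset_neg_one_pow_card_of_nonempty x.2.1]
      simp
  exact main _ x rfl

open Classical in
lemma sum_mx_card (x : Simplex G) :
    ∑ C ∈ mx G x, (-1 : ℤ) ^ C.card * (C.card : ℤ) = (-1) ^ x.1.card * (2 ^ x.1.card - 1) := by
  have main : ∀ n : ℕ, ∀ x : Simplex G, x.1.card = n →
      ∑ C ∈ mx G x, (-1 : ℤ) ^ C.card * (C.card : ℤ) = (-1) ^ x.1.card * (2 ^ x.1.card - 1) := by
    intro n
    induction n using Nat.strong_induction_on with
    | _ n ih =>
      intro x hx
      rw [sum_mx]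
      have h1 : ∀ C ∈ lo G x, (-1 : ℤ) ^ (insert x C).card * ((insert x C).card : ℤ)
          = - ((-1 : ℤ) ^ C.card * (C.card : ℤ)) + (-1 : ℤ) ^ (insert x C).card := by
        intro C hC
        rw [mem_lo] at hC
        rw [Finset.card_insert_of_notMem (fun h => ssubset_irrefl _ (hC.2 x h)), pow_succ]
        push_cast
        ring
      rw [Finset.sum_congr rfl h1, Finset.sum_add_distrib, Finset.sum_neg_distrib]
      have h0 := sum_mx G (fun C => (-1 : ℤ) ^ C.card) x
      rw [← h0, sum_mx_sign, sum_lo]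
      have h2 : ∑ y ∈ Finset.univ.filter (fun y : Simplex G => y.1 ⊂ x.1),
          ∑ C ∈ mx G y, (-1 : ℤ) ^ C.card * (C.card : ℤ)
          = ∑ y ∈ Finset.univ.filter (fun y : Simplex G => y.1 ⊂ x.1),
              (-1 : ℤ) ^ y.1.card * (2 ^ y.1.card - 1) := by
        apply Finset.sum_congr rfl
        intro y hy
        rw [Finset.mem_filter] at hy
        exact ih y.1.card (by rw [← hx]; exact Finset.card_lt_card hy.2) y rfl
      rw [h2, sum_faces G (fun k => (-1 : ℤ) ^ k * (2 ^ k - 1)) x]
      have h3 : ∑ t ∈ x.1.powerset, (-1 : ℤ) ^ t.card * (2 ^ t.card - 1)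
          = (-1) ^ x.1.card := by
        have h4 : ∀ t ∈ x.1.powerset, (-1 : ℤ) ^ t.card * (2 ^ t.card - 1)
            = (-2 : ℤ) ^ t.card * 1 ^ (x.1.card - t.card) - (-1 : ℤ) ^ t.card := by
          intro t _
          rw [mul_sub, ← mul_pow]
          norm_num
        rw [Finset.sum_congr rfl h4, Finset.sum_sub_distrib, Finset.sum_pow_mul_eq_add_pow,
          Finset.sum_powerset_neg_one_pow_card_of_nonempty x.2.1]
        norm_num
      rw [h3]
      simp
  exact main _ x rfl

end Chains

open Classical in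
/-- The functional `η` as a sum over simplices. -/
lemma eta_eq {V : Type u} [Fintype V] (G : SimpleGraph V) :
    eta G = ∑ t ∈ (cl G).erase ∅, ((-1 : ℤ) ^ t.card * (2 ^ t.card - 1) + 1) := by
  set H := barycentric G with hH
  -- step 1
  have h1 : eta G = ∑ C ∈ (cl H).filter (fun C => 2 ≤ C.card), (-1 : ℤ) ^ C.card * (C.card : ℤ) := by
    unfold eta
    have hmaps : ∀ C ∈ (cl H).filter (fun C => 2 ≤ C.card),
        C.card - 1 ∈ Finset.Icc 1 (Nat.card (Simplex G)) := by
      intro C hC
      rw [Finset.mem_filter] at hC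
      rw [Finset.mem_Icc, Nat.card_eq_fintype_card]
      have := Finset.card_le_univ C
      omega
    rw [← Finset.sum_fiberwise_of_maps_to hmaps]
    apply Finset.sum_congr rfl
    intro k hk
    rw [Finset.mem_Icc] at hk
    have h2 : ((cl H).filter (fun C => 2 ≤ C.card)).filter (fun C => C.card - 1 = k)
        = Finset.univ.filter (fun C : Finset (Simplex G) => H.IsNClique (k + 1) C) := by
      ext C
      rw [Finset.mem_filter, Finset.mem_filter, mem_cl, Finset.mem_filter,
        SimpleGraph.isNClique_iff]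
      constructor
      · rintro ⟨⟨h3, h4⟩, h5⟩
        exact ⟨Finset.mem_univ _, h3, by omega⟩
      · rintro ⟨_, h3, h4⟩
        exact ⟨⟨h3, by omega⟩, by omega⟩
    rw [h2]
    have h3 : ∀ C ∈ Finset.univ.filter (fun C : Finset (Simplex G) => H.IsNClique (k + 1) C),
        (-1 : ℤ) ^ C.card * (C.card : ℤ) = (-1 : ℤ) ^ (k + 1) * ((k : ℤ) + 1) := by
      intro C hC
      rw [Finset.mem_filter, SimpleGraph.isNClique_iff] at hC
      rw [hC.2.2]
      push_cast
      ring
    rw [Finset.sum_congr rfl h3, Finset.sum_const, numComplete, Nat.card_eq_fintype_card,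
      Fintype.card_subtype, nsmul_eq_mul]
    ring
  -- step 2
  have h2 : ∑ C ∈ cl H, (-1 : ℤ) ^ C.card * (C.card : ℤ)
      = ∑ y : Simplex G, (-1 : ℤ) ^ y.1.card * (2 ^ y.1.card - 1) := by
    rw [hH, sum_all]
    simp only [Finset.card_empty, Nat.cast_zero, mul_zero, zero_add]
    apply Finset.sum_congr rfl
    intro y _
    exact sum_mx_card G y
  have h3 : ∑ C ∈ (cl H).filter (fun C => ¬ 2 ≤ C.card), (-1 : ℤ) ^ C.card * (C.card : ℤ)
      = - ∑ _y : Simplex G, (1 : ℤ) := by
    have h4 : (cl H).filter (fun C => ¬ 2 ≤ C.card)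
        = insert ∅ ((Finset.univ : Finset (Simplex G)).image (fun y => {y})) := by
      ext C
      rw [Finset.mem_filter, mem_cl, Finset.mem_insert, Finset.mem_image]
      constructor
      · rintro ⟨h5, h6⟩
        by_cases hC : C = ∅
        · exact Or.inl hC
        · right
          have h7 : C.card = 1 := by
            have := Finset.card_pos.mpr (Finset.nonempty_iff_ne_empty.mpr hC)
            omega
          obtain ⟨y, hy⟩ := Finset.card_eq_one.mp h7
          exact ⟨y, Finset.mem_univ _, hy.symm⟩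
      · rintro (rfl | ⟨y, _, rfl⟩)
        · simp
        · simp
    rw [h4, Finset.sum_insert, Finset.sum_image]
    · simp
    · intro a _ b _ hab
      exact Finset.singleton_injective hab
    · intro h
      rw [Finset.mem_image] at h
      obtain ⟨y, _, hy⟩ := h
      exact Finset.singleton_ne_empty y hy
  have h4 := Finset.sum_filter_add_sum_filter_not (cl H) (fun C => 2 ≤ C.card)
    (fun C => (-1 : ℤ) ^ C.card * (C.card : ℤ))
  rw [← h1, h2, h3] at h4
  have h5 : eta G = ∑ y : Simplex G, ((-1 : ℤ) ^ y.1.card * (2 ^ y.1.card - 1) + 1) := by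
    rw [Finset.sum_add_distrib]
    linarith
  rw [h5]
  refine Finset.sum_bij (fun y _ => y.1) ?_ ?_ ?_ ?_
  · intro y _
    rw [Finset.mem_erase, mem_cl]
    exact ⟨Finset.nonempty_iff_ne_empty.mp y.2.1, y.2.2⟩
  · intro a _ b _ hab
    exact Subtype.ext hab
  · intro t ht
    rw [Finset.mem_erase, mem_cl] at ht
    exact ⟨⟨t, Finset.nonempty_iff_ne_empty.mpr ht.1, ht.2⟩, Finset.mem_univ _, rfl⟩
  · intro y _
    rfl

open Classical in
lemma double_count {V : Type u} [Fintype V] (G : SimpleGraph V) (w : ℕ → ℤ) :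
    ∑ x ∈ (cl G).erase ∅, w x.card * R G x
      = ∑ t ∈ (cl G).erase ∅, (-1 : ℤ) ^ t.card * ((∑ x ∈ t.powerset, w x.card) - w 0) := by
  have h1 : ∀ t ∈ (cl G).erase ∅, (-1 : ℤ) ^ t.card * ((∑ x ∈ t.powerset, w x.card) - w 0)
      = ∑ x ∈ t.powerset.erase ∅, w x.card * (-1 : ℤ) ^ t.card := by
    intro t _
    rw [← Finset.sum_mul, mul_comm]
    congr 1
    have := Finset.add_sum_erase t.powerset (fun x : Finset V => w x.card)
      (Finset.empty_mem_powerset t)
    simp only [Finset.card_empty] at this
    linarith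
  rw [Finset.sum_congr rfl h1]
  have h2 : ∀ x ∈ (cl G).erase ∅, w x.card * R G x
      = ∑ t ∈ clc G x, w x.card * (-1 : ℤ) ^ t.card := by
    intro x _
    rw [R, Finset.mul_sum]
  rw [Finset.sum_congr rfl h2]
  apply Finset.sum_comm'
  intro x t
  rw [Finset.mem_erase, mem_cl, mem_clc, Finset.mem_erase, Finset.mem_powerset, Finset.mem_erase,
    mem_cl]
  constructor
  · rintro ⟨⟨h3, h4⟩, h5, h6⟩
    refine ⟨⟨h3, h6⟩, ?_, h5⟩
    rintro rfl
    exact h3 (Finset.subset_empty.mp h6)
  · rintro ⟨⟨h3, h4⟩, h5, h6⟩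
    exact ⟨⟨h3, h6.subset (by exact_mod_cast h4)⟩, h6, h4⟩

open Classical in
/-- The exact value of `η` on `d`-varieties: `η(G) = (1 - (-1)^d) ∑_x (1 - (-1)^{dim x})`, the sum over
all simplices `x` of `G`. -/
theorem eta_variety (d : ℕ) {V : Type u} [Fintype V] (G : SimpleGraph V)
    (hG : IsVariety (d + 1) G) :
    eta G = (1 + (-1) ^ (d + 1)) * ∑ x ∈ (cl G).erase ∅, (1 + (-1 : ℤ) ^ x.card) := by
  have h1 := double_count G (fun _ => 1)
  have h2 := double_count G (fun k => (-1) ^ k)
  have h3 : ∀ t ∈ (cl G).erase ∅, (-1 : ℤ) ^ t.card * ((∑ _x ∈ t.powerset, (1 : ℤ)) - 1)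
      = (-1 : ℤ) ^ t.card * (2 ^ t.card - 1) := by
    intro t _
    rw [Finset.sum_const, Finset.card_powerset, nsmul_eq_mul, mul_one]
    push_cast
    ring
  have h4 : ∀ t ∈ (cl G).erase ∅,
      (-1 : ℤ) ^ t.card * ((∑ x ∈ t.powerset, (-1 : ℤ) ^ x.card) - (-1) ^ 0)
      = - (-1 : ℤ) ^ t.card := by
    intro t ht
    rw [Finset.mem_erase] at ht
    rw [Finset.sum_powerset_neg_one_pow_card_of_nonempty (Finset.nonempty_iff_ne_empty.mpr ht.1)]
    ring
  rw [Finset.sum_congr rfl h3] at h1
  rw [Finset.sum_congr rfl h4] at h2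
  have h5 : ∑ x ∈ (cl G).erase ∅, (1 + (-1 : ℤ) ^ x.card) * R G x
      = (-1) ^ (d + 1) * ∑ x ∈ (cl G).erase ∅, (1 + (-1 : ℤ) ^ x.card) := by
    rw [Finset.mul_sum]
    apply Finset.sum_congr rfl
    intro x hx
    rw [Finset.mem_erase, mem_cl] at hx
    by_cases hc : 2 ≤ x.card
    · rw [R_variety d hG x hc hx.2]
      ring
    · have : x.card = 1 := by
        have := Finset.card_pos.mpr (Finset.nonempty_iff_ne_empty.mpr hx.1)
        omega
      rw [this]
      simp
  have h6 : ∑ x ∈ (cl G).erase ∅, (1 + (-1 : ℤ) ^ x.card) * R G x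
      = ∑ x ∈ (cl G).erase ∅, 1 * R G x + ∑ x ∈ (cl G).erase ∅, (-1 : ℤ) ^ x.card * R G x := by
    rw [← Finset.sum_add_distrib]
    apply Finset.sum_congr rfl
    intro x _
    ring
  have h7 := eta_eq G
  rw [Finset.sum_add_distrib] at h7
  have h8 : ∑ x ∈ (cl G).erase ∅, (1 + (-1 : ℤ) ^ x.card)
      = ∑ x ∈ (cl G).erase ∅, (1 : ℤ) + ∑ x ∈ (cl G).erase ∅, (-1 : ℤ) ^ x.card :=
    Finset.sum_add_distrib
  rw [Finset.sum_neg_distrib] at h2
  rw [h6, h1, h2] at h5
  rw [add_mul, one_mul, ← h5, h7, h8]
  ring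

/-- **Main result.** For every `d ≥ 0` and every finite `d`-variety `G`, `η(G) ≥ 0`. -/
theorem result : ∀ (d : ℕ) (V : Type u) [Finite V] (G : SimpleGraph V),
    IsVariety (d + 1) G → 0 ≤ eta G := by
  classical
  intro d V _ G hG
  have := Fintype.ofFinite V
  rw [eta_variety d G hG]
  apply mul_nonneg
  · rcases neg_one_pow_eq_or ℤ (d + 1) with h | h <;> rw [h] <;> norm_num
  · apply Finset.sum_nonneg
    intro x _
    rcases neg_one_pow_eq_or ℤ x.card with h | h <;> rw [h] <;> norm_num

end Pool.Agent.Results.MP_165839_co.EtaNonneg
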